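import Mathlib

set_option autoImplicit false

namespace Pool.Agent.Results.MP_642fbc_lc.NoPolynomial

open Finset

/-- the word `u` of length `l` is an orphan of the range-2 CA with local rule `f` -/
def Orphan {S : Type} (f : S → S → S) {l : ℕ} (u : Fin l → S) : Prop :=
  ¬ ∃ v : Fin (l + 1) → S, ∀ i : Fin l, f (v i.castSucc) (v i.succ) = u i

/-- the proportion of words of length `l` that are orphans -/
noncomputable def rho {S : Type} (f : S → S → S) (l : ℕ) : ℝ :=
  (Nat.card {u : Fin l → S // Orphan f u} : ℝ) / (Nat.card S : ℝ) ^ l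

abbrev St (p : ℕ) := Bool × ZMod p × ZMod p

def F {p : ℕ} (c : Bool) (x x' : ZMod p × ZMod p) : ZMod p × ZMod p :=
  if c then (x'.1 - x.1, x'.2 - x.2 - x.1) else (x.1 + x.2, x'.2)

def rule (p : ℕ) (a b : St p) : St p := (a.1, F a.1 a.2 b.2)

def run (c : ℕ → Bool) : ℕ → ℕ
  | 0 => 0
  | (l + 1) => if c l then run c l + 1 else 0

theorem reach {p : ℕ} [Fact p.Prime] (c : ℕ → Bool) (y : ℕ → ZMod p × ZMod p) (l : ℕ)
    (h : ∀ i < l, run c i + 1 < p) :
    ∃ a : ZMod p × ZMod p, ∀ s : ZMod p, ∃ x : ℕ → ZMod p × ZMod p,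
      (∀ i < l, F (c i) (x i) (x (i + 1)) = y i) ∧ x l = (a.1 + s, a.2 + s * (run c l : ZMod p)) := by
  induction l with
  | zero => exact ⟨0, fun s => ⟨fun _ => (s, 0), by simp, by simp [run]⟩⟩
  | succ l ih =>
    obtain ⟨a, ha⟩ := ih fun i hi => h i (by omega)
    have ext : ∀ (x : ℕ → ZMod p × ZMod p) (z : ZMod p × ZMod p),
        (∀ i < l, F (c i) (x i) (x (i + 1)) = y i) → F (c l) (x l) z = y l →
        ∃ x' : ℕ → ZMod p × ZMod p, (∀ i < l + 1, F (c i) (x' i) (x' (i + 1)) = y i) ∧
          x' (l + 1) = z := by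
      intro x z h1 h2
      refine ⟨Function.update x (l + 1) z, ?_, by simp⟩
      intro i hi
      rw [Function.update_of_ne (by omega)]
      rcases Nat.lt_succ_iff_lt_or_eq.1 hi with h3 | rfl
      · rw [Function.update_of_ne (by omega)]; exact h1 i h3
      · simpa using h2
    cases hc : c l with
    | true =>
      refine ⟨(a.1 + (y l).1, a.2 + a.1 + (y l).2), fun s => ?_⟩
      obtain ⟨x, h1, h2⟩ := ha s
      apply ext x _ h1
      simp only [F, hc, h2, run, if_true]
      ext
      · simp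
      · simp; ring
    | false =>
      refine ⟨(0, (y l).2), fun s => ?_⟩
      have hne : ((run c l + 1 : ℕ) : ZMod p) ≠ 0 := by
        rw [Ne, ZMod.natCast_eq_zero_iff]
        exact Nat.not_dvd_of_pos_of_lt (by omega) (h l (by omega))
      push_cast at hne
      obtain ⟨x, h1, h2⟩ := ha (((y l).1 - a.1 - a.2) / ((run c l : ZMod p) + 1))
      apply ext x _ h1
      simp only [F, hc, h2, run]
      ext
      · simp only [Bool.false_eq_true, if_false]
        field_simp
        ring
      · simp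

theorem run_spec (c : ℕ → Bool) (k i : ℕ) (h : k ≤ run c i) :
    k ≤ i ∧ ∀ t, i - k ≤ t → t < i → c t = true := by
  induction i generalizing k with
  | zero => simp [run] at h; simp [h]
  | succ i ih =>
    rcases k with _ | k
    · exact ⟨by omega, fun t h1 h2 => by omega⟩
    · cases hc : c i with
      | false => simp [run, hc] at h
      | true =>
        simp only [run, hc, if_true, add_le_add_iff_right] at h
        obtain ⟨h1, h2⟩ := ih k h
        refine ⟨by omega, fun t h3 h4 => ?_⟩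
        rcases Nat.lt_succ_iff_lt_or_eq.1 h4 with h5 | rfl
        · exact h2 t (by omega) h5
        · exact hc

theorem orphan_run {p : ℕ} [Fact p.Prime] {l : ℕ} (u : Fin l → St p) (hu : Orphan (rule p) u) :
    ∃ j < l, j + (p - 1) ≤ l ∧ ∀ t : Fin l, j ≤ t → t < j + (p - 1) → (u t).1 = true := by
  by_contra hcon
  have hp := (Fact.out : p.Prime).two_le
  let U : ℕ → St p := fun i => if h : i < l then u ⟨i, h⟩ else (false, 0)
  obtain ⟨a, ha⟩ := reach (fun i => (U i).1) (fun i => (U i).2) l (by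
    intro i hi
    by_contra h
    obtain ⟨h1, h2⟩ := run_spec (fun i => (U i).1) (p - 1) i (by omega)
    refine hcon ⟨i - (p - 1), by omega, by omega, fun t h3 h4 => ?_⟩
    have := h2 t h3 (by omega)
    simpa [U] using this)
  obtain ⟨x, hx, -⟩ := ha 0
  refine hu ⟨fun i => ((U i).1, x i), fun i => ?_⟩
  have := hx i i.2
  simp only [rule, Fin.val_castSucc, Fin.val_succ, this]
  simp [U]

theorem count {p : ℕ} [Fact p.Prime] (l : ℕ) :
    Nat.card {u : Fin l → St p // Orphan (rule p) u} * 2 ^ (p - 1) ≤ l * Nat.card (St p) ^ l := by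
  classical
  let G : Finset (St p) := univ.filter fun a => a.1 = true
  have hG : G.card * 2 = Nat.card (St p) := by
    have : G = ({true} : Finset Bool) ×ˢ (univ : Finset (ZMod p × ZMod p)) := by
      ext ⟨a, b⟩; simp [G]
    rw [this]
    simp [mul_comm]
  let B : ℕ → Finset (Fin l → St p) := fun j =>
    Fintype.piFinset fun t => if j ≤ (t : ℕ) ∧ (t : ℕ) < j + (p - 1) then G else univ
  have hB : ∀ j, j + (p - 1) ≤ l → (B j).card * 2 ^ (p - 1) = Nat.card (St p) ^ l := by
    intro j hj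
    have e : (2 : ℕ) ^ (p - 1) = ∏ t : Fin l, if j ≤ (t : ℕ) ∧ (t : ℕ) < j + (p - 1) then 2 else 1 := by
      rw [Fin.prod_univ_eq_prod_range (fun t => if j ≤ t ∧ t < j + (p - 1) then 2 else 1),
        prod_ite, prod_const_one, mul_one, prod_const]
      congr 1
      have : (range l).filter (fun t => j ≤ t ∧ t < j + (p - 1)) = Ico j (j + (p - 1)) := by
        ext t; simp; omega
      rw [this]; simp
    rw [Fintype.card_piFinset, e, ← prod_mul_distrib]
    rw [prod_congr rfl (g := fun _ => Nat.card (St p))]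
    · simp
    · intro t _
      split_ifs
      · exact hG
      · simp
  rw [Nat.card_eq_fintype_card, Fintype.card_subtype]
  have hsub : univ.filter (fun u : Fin l → St p => Orphan (rule p) u) ⊆
      ((range l).filter fun j => j + (p - 1) ≤ l).biUnion B := by
    intro u hu
    obtain ⟨j, h1, h2, h3⟩ := orphan_run u (mem_filter.1 hu).2
    refine mem_biUnion.2 ⟨j, by simp [h1, h2], Fintype.mem_piFinset.2 fun t => ?_⟩
    split_ifs with h
    · simp [G, h3 t h.1 h.2]
    · simp
  refine (Nat.mul_le_mul_right _ ((card_le_card hsub).trans card_biUnion_le)).trans ?_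
  rw [sum_mul, sum_congr rfl fun j hj => hB j (mem_filter.1 hj).2, sum_const, smul_eq_mul]
  exact Nat.mul_le_mul_right _ ((card_filter_le _ _).trans (by simp))

theorem has_orphan {p : ℕ} [Fact p.Prime] : ∃ u : Fin (p + 1) → St p, Orphan (rule p) u := by
  have hp := (Fact.out : p.Prime).two_le
  refine ⟨fun i => if (i : ℕ) = 0 then (false, 0) else if (i : ℕ) = p then (false, 1, 0)
    else (true, 0), ?_⟩
  rintro ⟨v, hv⟩
  have key : ∀ j (hj : j + 1 < p + 1 + 1), j < p →
      (v ⟨j + 1, hj⟩).2 = ((v ⟨1, by omega⟩).2.1, j * (v ⟨1, by omega⟩).2.1) := by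
    intro j
    induction j with
    | zero =>
      intro hj _
      have := hv ⟨0, by omega⟩
      simp only [rule, if_true, Prod.mk.injEq] at this
      obtain ⟨h1, h2⟩ := this
      rw [h1] at h2
      simp only [F, Bool.false_eq_true, if_false] at h2
      ext
      · rfl
      · simpa using congrArg Prod.snd h2
    | succ j ih =>
      intro hj hjp
      have h0 := ih (by omega) (by omega)
      have := hv ⟨j + 1, by omega⟩
      simp only [rule, Nat.succ_ne_zero, if_false, hjp.ne, Prod.mk.injEq] at this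
      obtain ⟨h1, h2⟩ := this
      rw [h1] at h2
      simp only [F, if_true, Fin.castSucc_mk, Fin.succ_mk, h0, Prod.mk_eq_zero] at h2
      ext
      · linear_combination h2.1
      · push_cast
        linear_combination h2.2
  obtain ⟨k, rfl⟩ : ∃ k, p = k + 1 := ⟨p - 1, by omega⟩
  have h0 := key k (by omega) (by omega)
  have := hv ⟨k + 1, by omega⟩
  simp only [rule, Nat.succ_ne_zero, if_false, if_true, Prod.mk.injEq] at this
  obtain ⟨h1, h2⟩ := this
  rw [h1] at h2
  simp only [F, Bool.false_eq_true, if_false, Fin.castSucc_mk, h0, Prod.mk.injEq] at h2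
  have hk : ((k + 1 : ℕ) : ZMod (k + 1)) = 0 := ZMod.natCast_self _
  push_cast at hk
  apply (zero_ne_one (α := ZMod (k + 1)))
  linear_combination h2.1 - (v ⟨1, by omega⟩).2.1 * hk

theorem poly_bound (P : MvPolynomial (Fin 2) ℝ) : ∃ (C : ℝ) (D : ℕ), 0 ≤ C ∧ ∀ N : ℝ, 1 ≤ N →
    ∀ v : Fin 2 → ℝ, (∀ i, |v i| ≤ N) → |MvPolynomial.eval v P| ≤ C * N ^ D := by
  induction P using MvPolynomial.induction_on with
  | C a => exact ⟨|a|, 0, abs_nonneg _, fun N _ v _ => by simp⟩
  | add p q hp hq =>
    obtain ⟨C, D, hC, h⟩ := hp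
    obtain ⟨C', D', hC', h'⟩ := hq
    refine ⟨C + C', D + D', by positivity, fun N hN v hv => ?_⟩
    have h1 : N ^ D ≤ N ^ (D + D') := pow_le_pow_right₀ hN (by omega)
    have h2 : N ^ D' ≤ N ^ (D + D') := pow_le_pow_right₀ hN (by omega)
    rw [map_add, add_mul]
    exact (abs_add_le _ _).trans (add_le_add ((h N hN v hv).trans (by gcongr))
      ((h' N hN v hv).trans (by gcongr)))
  | mul_X p i hp =>
    obtain ⟨C, D, hC, h⟩ := hp
    refine ⟨C, D + 1, hC, fun N hN v hv => ?_⟩
    rw [map_mul, MvPolynomial.eval_X, abs_mul, pow_succ, ← mul_assoc]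
    exact mul_le_mul (h N hN v hv) (hv i) (abs_nonneg _) (by positivity)

theorem result (P : MvPolynomial (Fin 2) ℝ) :
    ∃ (S : Type) (_ : Finite S) (_ : Nonempty S) (f : S → S → S) (m : ℕ),
      IsLeast {k | ∃ u : Fin k → S, Orphan f u} m ∧
      ∀ l : ℕ, (l : ℝ) ≤ MvPolynomial.eval ![(Nat.card S : ℝ), (m : ℝ)] P → rho f l ≤ 1 / 2 := by
  obtain ⟨C, D, hC, hP⟩ := poly_bound P
  have ht := (tendsto_pow_const_div_const_pow_of_one_lt (2 * D) (r := 2) (by norm_num)).const_mul
    (C * 2 ^ D * 4)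
  rw [mul_zero] at ht
  obtain ⟨N, hN⟩ := Filter.eventually_atTop.1 (ht.eventually (gt_mem_nhds one_pos))
  obtain ⟨p, hpN, hp⟩ := Nat.exists_infinite_primes N
  have : Fact p.Prime := ⟨hp⟩
  have h2 := hp.two_le
  have hcard : Nat.card (St p) = 2 * p ^ 2 := by simp [sq]
  have hne : {k | ∃ u : Fin k → St p, Orphan (rule p) u}.Nonempty := ⟨p + 1, has_orphan⟩
  have hm : sInf {k | ∃ u : Fin k → St p, Orphan (rule p) u} ≤ p + 1 := Nat.sInf_le has_orphan
  refine ⟨St p, inferInstance, inferInstance, rule p, _, isLeast_csInf hne, fun l hl => ?_⟩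
  have hb := hP (2 * p ^ 2 : ℕ) (by exact_mod_cast (by nlinarith : 1 ≤ 2 * p ^ 2))
    ![(Nat.card (St p) : ℝ), (sInf {k | ∃ u : Fin k → St p, Orphan (rule p) u} : ℕ)] (by
      intro i
      fin_cases i
      · simp [sq]
      · simp only [Fin.mk_one, Matrix.cons_val_one, Matrix.cons_val_fin_one, Nat.abs_cast]
        exact_mod_cast hm.trans (by nlinarith))
  have hl2 := hl.trans ((le_abs_self _).trans hb)
  have h3 := hN p hpN
  rw [← mul_div_assoc, div_lt_one (by positivity)] at h3
  have h4 : (l : ℝ) * 2 ≤ 2 ^ (p - 1) := by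
    obtain ⟨k, rfl⟩ : ∃ k, p = k + 1 := ⟨p - 1, by omega⟩
    rw [Nat.add_sub_cancel]
    rw [pow_succ (2 : ℝ) k] at h3
    push_cast at hl2 h3
    rw [mul_pow, ← pow_mul] at hl2
    nlinarith
  have h5 : ((Nat.card {u : Fin l → St p // Orphan (rule p) u} : ℝ)) * 2 ^ (p - 1) ≤
      l * (Nat.card (St p) : ℝ) ^ l := by exact_mod_cast count l
  have h6 : (0 : ℝ) < (Nat.card (St p) : ℝ) ^ l := by
    rw [hcard]; positivity
  rw [rho, div_le_iff₀ h6]
  have h7 : (0 : ℝ) < 2 ^ (p - 1) := by positivity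
  refine le_of_mul_le_mul_right (h5.trans ?_) h7
  nlinarith

end Pool.Agent.Results.MP_642fbc_lc.NoPolynomial
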